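import Pool.Agent.TH221.PartB2
import Pool.Agent.TH571.J141

/-!
# Closed sets removable for continuous `W^{1,n}` functions are exactly the closed CNED sets

The theorem `result` answers question Q1 of the problem in the positive, for every `n ≥ 2`.
-/

set_option autoImplicit false

open MeasureTheory Set Filter Topology Metric
open scoped ENNReal ContDiff

namespace Pool.Agent.Results.MP_bb0df9_an.CnedIffRemovable

/-- Euclidean `n`-space. -/
abbrev Eucl (n : ℕ) := EuclideanSpace ℝ (Fin n)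

/-- The path `γ : [0, 1] → ℝⁿ` is rectifiable: it has finite length. -/
def IsRectifiable {n : ℕ} (γ : ℝ → Eucl n) : Prop := eVariationOn γ (Icc 0 1) ≠ ⊤

/-- The line integral `∫_γ ρ ds` over a rectifiable path `γ : [0, 1] → ℝⁿ`: the integral of
`ρ ∘ γ_s` over `[0, length of γ]`, where `γ_s` is the parametrization of `γ` by arc length. -/
noncomputable def lineIntegral {n : ℕ} (ρ : Eucl n → ℝ≥0∞) (γ : ℝ → Eucl n) : ℝ≥0∞ :=
  ∫⁻ s in Icc 0 (eVariationOn γ (Icc 0 1)).toReal, ρ (naturalParameterization γ (Icc 0 1) 0 s)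

/-- The conformal `n`-modulus of a family `Γ` of paths `[0, 1] → ℝⁿ`: the infimum of `∫ ρⁿ` over
the Borel functions `ρ : ℝⁿ → [0, ∞]` with `∫_γ ρ ds ≥ 1` for all rectifiable `γ` in `Γ`. -/
noncomputable def modulus {n : ℕ} (Γ : Set (ℝ → Eucl n)) : ℝ≥0∞ :=
  ⨅ (ρ : Eucl n → ℝ≥0∞) (_ : Measurable ρ)
    (_ : ∀ γ ∈ Γ, IsRectifiable γ → 1 ≤ lineIntegral ρ γ), ∫⁻ x, ρ x ^ n

/-- The family `Γ(F₁, F₂; ℝⁿ)` of the paths (functions continuous on `[0, 1]`) from `F₁` to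
`F₂`. -/
def joining {n : ℕ} (F₁ F₂ : Set (Eucl n)) : Set (ℝ → Eucl n) :=
  {γ | ContinuousOn γ (Icc 0 1) ∧ γ 0 ∈ F₁ ∧ γ 1 ∈ F₂}

/-- The family `F_σ(E)` of the paths whose trace meets `E` in at most countably many points. -/
def curvesSigma {n : ℕ} (E : Set (Eucl n)) : Set (ℝ → Eucl n) :=
  {γ | (γ '' Icc 0 1 ∩ E).Countable}

/-- `E` is CNED: for any two disjoint continua (nonempty compact connected sets) `F₁`, `F₂` the
modulus of `Γ(F₁, F₂; ℝⁿ)` equals the modulus of `Γ(F₁, F₂; ℝⁿ) ∩ F_σ(E)`. -/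
def IsCNED {n : ℕ} (E : Set (Eucl n)) : Prop :=
  ∀ F₁ F₂ : Set (Eucl n), IsCompact F₁ → IsConnected F₁ → IsCompact F₂ → IsConnected F₂ →
    Disjoint F₁ F₂ → modulus (joining F₁ F₂) = modulus (joining F₁ F₂ ∩ curvesSigma E)

/-- `u ∈ W^{1,n}(Ω)`: `u ∈ Lⁿ(Ω)` and `u` has a weak derivative `Du ∈ Lⁿ(Ω)`, tested against the
smooth functions with compact support in `Ω`. -/
def InSobolev {n : ℕ} (Ω : Set (Eucl n)) (u : Eucl n → ℝ) : Prop :=
  MemLp u n (volume.restrict Ω) ∧ ∃ Du : Eucl n → Eucl n →L[ℝ] ℝ,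
    MemLp Du n (volume.restrict Ω) ∧
    ∀ φ : Eucl n → ℝ, ContDiff ℝ ∞ φ → HasCompactSupport φ → tsupport φ ⊆ Ω → ∀ v : Eucl n,
      ∫ x in Ω, u x * fderiv ℝ φ x v = - ∫ x in Ω, φ x * Du x v

/-- `E` is removable for continuous `W^{1,n}` functions: every continuous function on `ℝⁿ` which
is in `W^{1,n}(ℝⁿ \ E)` is in `W^{1,n}(ℝⁿ)`. -/
def IsRemovable {n : ℕ} (E : Set (Eucl n)) : Prop :=
  ∀ u : Eucl n → ℝ, Continuous u → InSobolev Eᶜ u → InSobolev univ u

section aux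

open Pool.Agent.TH221

variable {n : ℕ}

lemma inSobolev_iff {Ω : Set (Eucl n)} {u : Eucl n → ℝ} : InSobolev Ω u ↔ InW Ω u := by
  have key : ∀ (Du : Eucl n → Eucl n →L[ℝ] ℝ) (φ : Eucl n → ℝ), tsupport φ ⊆ Ω → ∀ v : Eucl n,
      (∫ x in Ω, u x * fderiv ℝ φ x v = ∫ x, u x * fderiv ℝ φ x v) ∧
      (∫ x in Ω, φ x * Du x v = ∫ x, φ x * Du x v) := by
    intro Du φ hs v
    constructor
    · refine setIntegral_eq_integral_of_forall_compl_eq_zero fun x hx => ?_
      have h0 : fderiv ℝ φ x = 0 := by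
        by_contra hne
        exact hx (hs (support_fderiv_subset ℝ (Function.mem_support.2 hne)))
      rw [h0]
      simp
    · refine setIntegral_eq_integral_of_forall_compl_eq_zero fun x hx => ?_
      rw [image_eq_zero_of_notMem_tsupport fun h => hx (hs h), zero_mul]
  constructor
  · rintro ⟨h1, Du, h2, h3⟩
    refine ⟨h1, Du, h2, fun φ hφ hc hs v => ?_⟩
    have := h3 φ hφ hc hs v
    rwa [(key Du φ hs v).1, (key Du φ hs v).2] at this
  · rintro ⟨h1, Du, h2, h3⟩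
    refine ⟨h1, Du, h2, fun φ hφ hc hs v => ?_⟩
    rw [(key Du φ hs v).1, (key Du φ hs v).2]
    exact h3 φ hφ hc hs v

lemma adm_iff {E F₁ F₂ : Set (Eucl n)} {ρ : Eucl n → ℝ≥0∞} :
    Adm E F₁ F₂ ρ ↔ Measurable ρ ∧
      ∀ γ ∈ joining F₁ F₂ ∩ curvesSigma E, IsRectifiable γ → 1 ≤ lineIntegral ρ γ := by
  constructor
  · rintro ⟨hm, h⟩
    refine ⟨hm, ?_⟩
    rintro c ⟨⟨hc, h0, h1⟩, hE⟩ hv
    obtain ⟨γ, ℓ, hγ, hℓ, hγ0, hγ1, him, hcost⟩ := bridge_to_crv hc hv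
    have hcrv : Crv univ E (c 0) (c 1) γ ℓ :=
      ⟨hγ, hℓ, hγ0, hγ1, fun _ _ => mem_univ _, by rw [him]; exact hE⟩
    have := h _ h0 _ h1 γ ℓ hcrv
    rw [← hcost ρ] at this
    exact this
  · rintro ⟨hm, h⟩
    refine ⟨hm, fun x hx y hy γ ℓ hγ => ?_⟩
    obtain ⟨c, hc, h0, h1, hv, him, hcost⟩ := bridge_of_crv hγ
    refine le_trans (h c ⟨⟨hc, by rwa [h0], by rwa [h1]⟩, ?_⟩ hv) (hcost ρ hm)
    change (c '' Icc 0 1 ∩ E).Countable
    rw [him]
    exact hγ.cnt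

lemma modulus_sigma (E F₁ F₂ : Set (Eucl n)) :
    modulus (joining F₁ F₂ ∩ curvesSigma E) =
      ⨅ (ρ : Eucl n → ℝ≥0∞) (_ : Adm E F₁ F₂ ρ), ∫⁻ x, ρ x ^ n := by
  unfold modulus
  refine le_antisymm ?_ ?_
  · refine le_iInf₂ fun ρ hρ => ?_
    obtain ⟨h1, h2⟩ := adm_iff.1 hρ
    exact iInf_le_of_le ρ (iInf_le_of_le h1 (iInf_le _ h2))
  · refine le_iInf fun ρ => le_iInf₂ fun h1 h2 => ?_
    exact iInf₂_le ρ (adm_iff.2 ⟨h1, h2⟩)

lemma modulus_joining (F₁ F₂ : Set (Eucl n)) :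
    modulus (joining F₁ F₂) =
      ⨅ (ρ : Eucl n → ℝ≥0∞) (_ : Adm ∅ F₁ F₂ ρ), ∫⁻ x, ρ x ^ n := by
  rw [← modulus_sigma]
  congr 1
  ext γ
  simp [curvesSigma]

end aux

/-- **Full answer to Q1.** For every `n ≥ 2`, a closed subset of `ℝⁿ` is removable for continuous
`W^{1,n}` functions if and only if it is CNED. -/
theorem result : ∀ n : ℕ, 2 ≤ n → ∀ E : Set (Eucl n), IsClosed E →
    (IsRemovable E ↔ IsCNED E) := by
  intro n hn E hE
  constructor
  · intro hrem F₁ F₂ hF₁ hF₁c hF₂ _ _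
    rw [modulus_joining, modulus_sigma]
    refine le_antisymm (le_iInf₂ fun ρ hρ => ?_) (le_iInf₂ fun ρ hρ => ?_)
    · refine Pool.Agent.TH221.removable_imp hn hE (fun u hu hW => ?_) hF₁ hF₂ hF₁c.nonempty hρ
      exact inSobolev_iff.1 (hrem u hu (inSobolev_iff.2 hW))
    · refine iInf₂_le ρ ⟨hρ.1, fun x hx y hy γ ℓ hγ => hρ.2 x hx y hy γ ℓ ?_⟩
      exact hγ.mono (subset_refl _) (empty_subset _)
  · intro hcned u hu hW
    rw [inSobolev_iff] at hW ⊢
    refine Pool.Agent.TH221.removable_of_minProp hn hE ?_ hu hW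
    intro x r R hr hR ρ hρ
    have hrank : 1 < Module.rank ℝ (Eucl n) := by
      rw [← Module.finrank_eq_rank, finrank_euclideanSpace_fin]
      exact_mod_cast (by omega : 1 < n)
    have h1 := hcned (sphere x r) (sphere x R) (isCompact_sphere x r)
      (isConnected_sphere hrank x hr.le) (isCompact_sphere x R)
      (isConnected_sphere hrank x (hr.trans hR).le) (by
        rw [Set.disjoint_left]
        intro y hy hy'
        rw [mem_sphere] at hy hy'
        linarith)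
    rw [modulus_joining, modulus_sigma] at h1
    have h2 : Pool.Agent.TH221.ringE x r R ≤
        ⨅ (ρ : Eucl n → ℝ≥0∞) (_ : Pool.Agent.TH221.Adm ∅ (sphere x r) (sphere x R) ρ),
          ∫⁻ x, ρ x ^ n := by
      refine le_iInf₂ fun σ hσ => ?_
      refine Pool.Agent.TH221.ring_energy hn x hr hR hσ.1 fun e he => ?_
      have hc : Pool.Agent.TH221.Crv univ ∅ (x + r • e) (x + R • e)
          (fun t => x + (t + r) • e) (R - r) := by
        refine ⟨Pool.Agent.TH221.lip_of_le fun s t hst => ?_, by linarith, by simp, by simp,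
          fun _ _ => mem_univ _, by simp⟩
        rw [dist_add_left, dist_eq_norm, ← sub_smul, norm_smul, he, mul_one, Real.norm_eq_abs,
          abs_sub_comm, abs_of_nonneg (by linarith)]
        linarith
      have h3 := hσ.2 (x + r • e) (by simp [norm_smul, he, abs_of_pos hr]) (x + R • e)
        (by simp [norm_smul, he, abs_of_pos (hr.trans hR)]) _ _ hc
      have h4 := Pool.Agent.TH221.cost_shift (ρ := σ) (fun t => x + t • e) 0 (R - r) r
      rw [zero_add, sub_add_cancel] at h4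
      rw [h4] at h3
      exact h3
    calc Pool.Agent.TH221.ringE x r R ≤ _ := h2
      _ = _ := h1
      _ ≤ ∫⁻ y, ρ y ^ n := iInf₂_le ρ hρ

end Pool.Agent.Results.MP_bb0df9_an.CnedIffRemovable
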